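import Pool.Agent.T9h26.TD.Zl

open Filter

namespace Pool.Agent.Results.MP_7eacff_nt.Extremes

/-- multiplicity of `s` as a zero of the Riemann zeta function (order of vanishing at `s`) -/
noncomputable def zmult (s : ℂ) : ℕ := analyticOrderNatAt riemannZeta s

/-- the number of nontrivial zeros of `ζ` with ordinate in `(0, t]`, with multiplicity -/
noncomputable def NZ (t : ℝ) : ℕ :=
  ∑ᶠ s ∈ {s : ℂ | riemannZeta s = 0 ∧ 0 < s.re ∧ s.re < 1 ∧ 0 < s.im ∧ s.im ≤ t}, zmult s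

/-- for `n ≥ 1`: the `n`-th positive ordinate `γ n` of a nontrivial zero of `ζ`, the ordinates being
listed in nondecreasing order and repeated according to multiplicity -/
noncomputable def γ (n : ℕ) : ℝ := sInf {t : ℝ | n ≤ NZ t}

/-- the unfolded consecutive gaps `δ_n = (γ_{n+1} - γ_n) / 2π · log (γ_n / 2π)` -/
noncomputable def δ (n : ℕ) : ℝ := (γ (n + 1) - γ n) / (2 * Real.pi) * Real.log (γ n / (2 * Real.pi))

/-- the fluctuation of the sum of `k` consecutive unfolded gaps, `δ_n + ... + δ_{n+k-1} - k` -/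
noncomputable def D (k n : ℕ) : ℝ := (∑ i ∈ Finset.range k, δ (n + i)) - k

/-- the proportion of the `n ≤ N` with the property `P` -/
noncomputable def prop (P : ℕ → Prop) (N : ℕ) : ℝ :=
  (1 / N : ℝ) * ({n : ℕ | 1 ≤ n ∧ n ≤ N ∧ P n}.ncard : ℝ)

/-- among the blocks of consecutive gaps contained in `δ_n, ..., δ_{n+M-1}`, the largest and the
smallest fluctuation are within `ε log M` of `± (2/π) log M` -/
def AllBlocks (ε : ℝ) (M n : ℕ) : Prop :=
  (∀ j k : ℕ, j + k ≤ M → |D k (n + j)| ≤ (2 / Real.pi + ε) * Real.log M) ∧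
  (∃ j k : ℕ, j + k ≤ M ∧ (2 / Real.pi - ε) * Real.log M ≤ D k (n + j)) ∧
  (∃ j k : ℕ, j + k ≤ M ∧ D k (n + j) ≤ -((2 / Real.pi - ε) * Real.log M))

/-- among the blocks `δ_n, ..., δ_{n+k-1}` with `k ≤ M`, the largest and the smallest fluctuation
are within `ε log M` of `± (1/π) log M` -/
def InitialBlocks (ε : ℝ) (M n : ℕ) : Prop :=
  (∀ k : ℕ, k ≤ M → |D k n| ≤ (1 / Real.pi + ε) * Real.log M) ∧
  (∃ k : ℕ, k ≤ M ∧ (1 / Real.pi - ε) * Real.log M ≤ D k n) ∧
  (∃ k : ℕ, k ≤ M ∧ D k n ≤ -((1 / Real.pi - ε) * Real.log M))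

/-- Assume the Riemann hypothesis. For every `ε > 0` and every `M ≥ M0(ε)`, for all large `N` a
proportion at least `1 - ε` of the `n ≤ N` are such that the maximum of `|D k (n + j)|` over the
blocks `j + k ≤ M` is `(2/π + O(ε)) log M`, both signs being attained, and the maximum of `|D k n|`
over `k ≤ M` is `(1/π + O(ε)) log M`, both signs being attained. -/
theorem result (RH : RiemannHypothesis) (ε : ℝ) (hε : 0 < ε) :
    ∃ M0 : ℕ, ∀ M : ℕ, M0 ≤ M → ∀ᶠ N : ℕ in atTop,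
      1 - ε ≤ prop (fun n => AllBlocks ε M n ∧ InitialBlocks ε M n) N := by
  classical
  obtain ⟨M0, -, h⟩ := T9h26.TD.extr RH hε
  refine ⟨M0, fun M hM => ?_⟩
  filter_upwards [h M hM, eventually_gt_atTop 0] with N hN hN0
  have hNpos : (0 : ℝ) < N := by exact_mod_cast hN0
  set P : ℕ → Prop := fun n => AllBlocks ε M n ∧ InitialBlocks ε M n with hP
  have e0 : {n : ℕ | 1 ≤ n ∧ n ≤ N ∧ ¬ T9h26.TD.EX ε M n} = {n : ℕ | 1 ≤ n ∧ n ≤ N ∧ ¬ P n} := rfl
  rw [e0] at hN
  have e1 : {n : ℕ | 1 ≤ n ∧ n ≤ N ∧ P n} = ((Finset.Icc 1 N).filter P : Finset ℕ) := by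
    ext n
    simp only [Set.mem_setOf_eq, Finset.coe_filter, Finset.mem_Icc]
    tauto
  have e2 : {n : ℕ | 1 ≤ n ∧ n ≤ N ∧ ¬ P n} = ((Finset.Icc 1 N).filter (fun n => ¬ P n) : Finset ℕ) := by
    ext n
    simp only [Set.mem_setOf_eq, Finset.coe_filter, Finset.mem_Icc]
    tauto
  have e3 := Finset.card_filter_add_card_filter_not (s := Finset.Icc 1 N) P
  rw [Nat.card_Icc, Nat.add_sub_cancel] at e3
  have e4 : (((Finset.Icc 1 N).filter P).card : ℝ) +
      (((Finset.Icc 1 N).filter (fun n => ¬ P n)).card : ℝ) = N := by exact_mod_cast e3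
  rw [e2, Set.ncard_coe_finset] at hN
  unfold prop
  rw [e1, Set.ncard_coe_finset, one_div, inv_mul_eq_div, le_div_iff₀ hNpos]
  linarith

end Pool.Agent.Results.MP_7eacff_nt.Extremes
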