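import Pool.Agent.T9h26.TD.Lf

open Filter

namespace Pool.Agent.Results.MP_7eacff_nt.LargeDeviations

/-- multiplicity of `s` as a zero of the Riemann zeta function (order of vanishing at `s`) -/
noncomputable def zmult (s : ℂ) : ℕ := analyticOrderNatAt riemannZeta s

/-- the number of nontrivial zeros of `ζ` with ordinate in `(0, t]`, with multiplicity -/
noncomputable def NZ (t : ℝ) : ℕ :=
  ∑ᶠ s ∈ {s : ℂ | riemannZeta s = 0 ∧ 0 < s.re ∧ s.re < 1 ∧ 0 < s.im ∧ s.im ≤ t}, zmult s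

/-- for `n ≥ 1`: the `n`-th positive ordinate `γ n` of a nontrivial zero of `ζ`, the ordinates being
listed in nondecreasing order and repeated according to multiplicity -/
noncomputable def γ (n : ℕ) : ℝ := sInf {t : ℝ | n ≤ NZ t}

/-- the unfolded consecutive gaps `δ_n = (γ_{n+1} - γ_n) / 2π · log (γ_n / 2π)` -/
noncomputable def δ (n : ℕ) : ℝ := (γ (n + 1) - γ n) / (2 * Real.pi) * Real.log (γ n / (2 * Real.pi))

/-- the sum of `r` consecutive unfolded gaps, `δ_n + ... + δ_{n+r-1}` -/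
noncomputable def S (r n : ℕ) : ℝ := ∑ i ∈ Finset.range r, δ (n + i)

/-- the proportion of the `n ≤ N` with the property `P` -/
noncomputable def prop (P : ℕ → Prop) (N : ℕ) : ℝ :=
  (1 / N : ℝ) * ({n : ℕ | 1 ≤ n ∧ n ≤ N ∧ P n}.ncard : ℝ)

/-- Assume the Riemann hypothesis. For every `ε > 0` there are `C, c, r0 > 0` such that for all
`r ≥ r0`, all `x` with `C √(log r) ≤ x ≤ c log r log log r` and all large `N`: the proportion of the
`n ≤ N` for which the sum of `r` consecutive unfolded gaps is at least `r + x`, and the proportion of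
those for which it is at most `r - x`, are both at least `exp (-(1 + ε) π² x² / (2 log r))`; and for
every `m ≤ r` the proportion of those for which the sum of `m` consecutive gaps is at least `m + x`,
and of those for which it is at most `m - x`, are both at most
`exp (-(1 - ε) π² x² / (2 log r))`. -/
theorem result (RH : RiemannHypothesis) (ε : ℝ) (hε : 0 < ε) :
    ∃ C c r0 : ℝ, 0 < C ∧ 0 < c ∧ 0 < r0 ∧ ∀ (r : ℕ) (x : ℝ), r0 ≤ r →
      C * Real.sqrt (Real.log r) ≤ x → x ≤ c * (Real.log r * Real.log (Real.log r)) →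
      ∀ᶠ N : ℕ in atTop,
        (Real.exp (-(1 + ε) * (Real.pi ^ 2 * x ^ 2 / (2 * Real.log r))) ≤
            prop (fun n => r + x ≤ S r n) N ∧
          Real.exp (-(1 + ε) * (Real.pi ^ 2 * x ^ 2 / (2 * Real.log r))) ≤
            prop (fun n => S r n ≤ r - x) N) ∧
        ∀ m : ℕ, 1 ≤ m → m ≤ r →
          prop (fun n => m + x ≤ S m n) N ≤
            Real.exp (-(1 - ε) * (Real.pi ^ 2 * x ^ 2 / (2 * Real.log r))) ∧
          prop (fun n => S m n ≤ m - x) N ≤
            Real.exp (-(1 - ε) * (Real.pi ^ 2 * x ^ 2 / (2 * Real.log r))) := by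
  obtain ⟨C, c, r0, hC, hc, hr0, h⟩ := T9h26.TD.ldp RH hε
  refine ⟨C, c, r0, hC, hc, by linarith, fun r x hr h1 h2 => ?_⟩
  filter_upwards [h r x hr h1 h2, eventually_gt_atTop 0] with N hN hN0
  have hNpos : (0 : ℝ) < N := by exact_mod_cast hN0
  obtain ⟨⟨m1, m2⟩, m3⟩ := hN
  rw [T9h26.TD.Lam_eq] at m1 m2 m3
  have up : ∀ (P : ℕ → Prop) (a : ℝ), (({n : ℕ | 1 ≤ n ∧ n ≤ N ∧ P n}.ncard : ℕ) : ℝ) ≤
      Real.exp (-(a * (Real.pi ^ 2 * x ^ 2 / (2 * Real.log r)))) * N →
      prop P N ≤ Real.exp (-a * (Real.pi ^ 2 * x ^ 2 / (2 * Real.log r))) := by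
    intro P a hP
    unfold prop
    rw [one_div, inv_mul_le_iff₀ hNpos, neg_mul]
    linarith
  have lo : ∀ (P : ℕ → Prop) (a : ℝ), Real.exp (-(a * (Real.pi ^ 2 * x ^ 2 / (2 * Real.log r)))) * N ≤
      (({n : ℕ | 1 ≤ n ∧ n ≤ N ∧ P n}.ncard : ℕ) : ℝ) →
      Real.exp (-a * (Real.pi ^ 2 * x ^ 2 / (2 * Real.log r))) ≤ prop P N := by
    intro P a hP
    unfold prop
    rw [one_div, inv_mul_eq_div, le_div_iff₀ hNpos, neg_mul]
    exact hP
  refine ⟨⟨lo _ _ m1, lo _ _ m2⟩, fun m hm1 hm2 => ?_⟩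
  obtain ⟨q1, q2⟩ := m3 m hm1 hm2
  exact ⟨up _ _ q1, up _ _ q2⟩

end Pool.Agent.Results.MP_7eacff_nt.LargeDeviations
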