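import Pool.Agent.T9h26.TD.Rf

open Filter

namespace Pool.Agent.Results.MP_7eacff_nt.Rigidity

/-- multiplicity of `s` as a zero of the Riemann zeta function (order of vanishing at `s`) -/
noncomputable def zmult (s : ℂ) : ℕ := analyticOrderNatAt riemannZeta s

/-- the number of nontrivial zeros of `ζ` with ordinate in `(0, t]`, with multiplicity -/
noncomputable def NZ (t : ℝ) : ℕ :=
  ∑ᶠ s ∈ {s : ℂ | riemannZeta s = 0 ∧ 0 < s.re ∧ s.re < 1 ∧ 0 < s.im ∧ s.im ≤ t}, zmult s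

/-- for `n ≥ 1`: the `n`-th positive ordinate `γ n` of a nontrivial zero of `ζ`, the ordinates being
listed in nondecreasing order and repeated according to multiplicity -/
noncomputable def γ (n : ℕ) : ℝ := sInf {t : ℝ | n ≤ NZ t}

/-- the position of the `m`-th ordinate as seen from the `n`-th, in units of the mean spacing:
`(γ_m - γ_n) / 2π · log (γ_n / 2π)` -/
noncomputable def x (n m : ℕ) : ℝ := (γ m - γ n) / (2 * Real.pi) * Real.log (γ n / (2 * Real.pi))

/-- the number of the ordinates whose position as seen from the `n`-th lies in `S` -/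
noncomputable def inside (S : Set ℝ) (n : ℕ) : ℕ := {m : ℕ | 1 ≤ m ∧ x n m ∈ S}.ncard

/-- the sum of `f` over the positions, as seen from the `n`-th ordinate, which are at most `Y` in
absolute value and do not lie in `S` -/
noncomputable def outside (f : ℝ → ℝ) (S : Set ℝ) (Y : ℝ) (n : ℕ) : ℝ :=
  ∑ᶠ m ∈ {m : ℕ | 1 ≤ m ∧ |x n m| ≤ Y ∧ x n m ∉ S}, f (x n m)

/-- the proportion of the `n ≤ N` with the property `P` -/
noncomputable def prop (P : ℕ → Prop) (N : ℕ) : ℝ :=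
  (1 / N : ℝ) * ({n : ℕ | 1 ≤ n ∧ n ≤ N ∧ P n}.ncard : ℝ)

/-- Assume the Riemann hypothesis. For every `ε > 0`, `Y ≥ Y0(ε)` and `1 ≤ R ≤ Y` there are a
function `f` with values in `[0, 1]` and Lipschitz constant `1 / R` and a number `c` such that for all
large `N`, for a proportion at least `1 - Y ^ ε (R / Y) ^ (1 / 4)` of the `n ≤ N`, the number of the
ordinates with position in `S` is the integer nearest to `c - ∑ f(x)`, the sum being over the positions
`x` in `[-Y, Y]` outside `S`, for every subset `S` of `[-R, R]`. -/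
theorem result (RH : RiemannHypothesis) (ε : ℝ) (hε : 0 < ε) :
    ∃ Y0 : ℝ, ∀ Y R : ℝ, Y0 ≤ Y → 1 ≤ R → R ≤ Y → ∃ (f : ℝ → ℝ) (c : ℝ),
      (∀ t, 0 ≤ f t ∧ f t ≤ 1) ∧ (∀ s t, |f s - f t| ≤ |s - t| / R) ∧
      ∀ᶠ N : ℕ in atTop, 1 - Y ^ ε * (R / Y) ^ (1 / 4 : ℝ) ≤
        prop (fun n => ∀ S : Set ℝ, S ⊆ Set.Icc (-R) R →
          (inside S n : ℤ) = round (c - outside f S Y n)) N := by
  classical
  obtain ⟨d, hd⟩ : ∃ d, d = min ε (1 / 16) := ⟨_, rfl⟩
  have hd0 : 0 < d := by rw [hd]; exact lt_min hε (by norm_num)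
  have hd1 : d ≤ 1 / 16 := by rw [hd]; exact min_le_right _ _
  have hd2 : d ≤ ε := by rw [hd]; exact min_le_left _ _
  obtain ⟨Y0, hY0, h⟩ := T9h26.TD.rig_all RH hd0 hd1
  refine ⟨Y0, fun Y R hY hR hRY => ?_⟩
  obtain ⟨f, c, hf, hl, hN⟩ := h Y R hY hR hRY
  have hY1 : 1 ≤ Y := hY0.trans hY
  have hYp : 0 < Y := by linarith
  refine ⟨f, c, hf, hl, ?_⟩
  filter_upwards [hN, eventually_gt_atTop 0] with N hN hN0
  have hNpos : (0 : ℝ) < N := by exact_mod_cast hN0
  set P : ℕ → Prop := fun n => ∀ S : Set ℝ, S ⊆ Set.Icc (-R) R →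
    (inside S n : ℤ) = round (c - outside f S Y n) with hP
  have hx : ∀ n m, T9h26.TD.xp n m = x n m := by
    intro n m
    change (γ m - γ n) * Real.log (γ n / (2 * Real.pi)) / (2 * Real.pi) = _
    unfold x
    ring
  have hpt : ∀ n : ℕ, T9h26.TD.Read f c R Y n → P n := by
    intro n hn S hS
    have h1 := hn S (fun t ht => abs_le.2 (hS ht))
    have e1 : T9h26.TD.Win n S = {m : ℕ | 1 ≤ m ∧ x n m ∈ S} := by
      unfold T9h26.TD.Win
      simp_rw [hx]
    have e2 : T9h26.TD.Rin n S Y = {m : ℕ | 1 ≤ m ∧ |x n m| ≤ Y ∧ x n m ∉ S} := by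
      unfold T9h26.TD.Rin
      simp_rw [hx]
    rw [e1, e2] at h1
    simp_rw [hx] at h1
    exact h1.symm
  have e1 : {n : ℕ | 1 ≤ n ∧ n ≤ N ∧ P n} = ((Finset.Icc 1 N).filter P : Finset ℕ) := by
    ext n
    simp only [Finset.coe_filter, Finset.mem_Icc]
    exact ⟨fun h => ⟨⟨h.1, h.2.1⟩, h.2.2⟩, fun h => ⟨h.1.1, h.1.2, h.2⟩⟩
  have e3 := Finset.card_filter_add_card_filter_not (s := Finset.Icc 1 N) P
  rw [Nat.card_Icc, Nat.add_sub_cancel] at e3
  have e4 : (((Finset.Icc 1 N).filter P).card : ℝ) +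
      (((Finset.Icc 1 N).filter (fun n => ¬ P n)).card : ℝ) = N := by exact_mod_cast e3
  have e5 : (((Finset.Icc 1 N).filter (fun n => ¬ P n)).card : ℝ) ≤
      Y ^ ε * (R / Y) ^ (1 / 4 : ℝ) * N := by
    have hfin : {n : ℕ | 1 ≤ n ∧ n ≤ N ∧ ¬ T9h26.TD.Read f c R Y n}.Finite :=
      (Set.finite_Icc 1 N).subset fun n hn => ⟨hn.1, hn.2.1⟩
    have h5 : ((Finset.Icc 1 N).filter (fun n => ¬ P n)).card ≤
        {n : ℕ | 1 ≤ n ∧ n ≤ N ∧ ¬ T9h26.TD.Read f c R Y n}.ncard := by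
      rw [← Set.ncard_coe_finset]
      apply Set.ncard_le_ncard _ hfin
      intro n hn
      rw [Finset.coe_filter] at hn
      have hn' := hn
      obtain ⟨h6, h7⟩ := hn'
      rw [Finset.mem_Icc] at h6
      exact ⟨h6.1, h6.2, fun hc => h7 (hpt n hc)⟩
    have h6 : (((Finset.Icc 1 N).filter (fun n => ¬ P n)).card : ℝ) ≤
        Y ^ d * (R / Y) ^ (1 / 4 : ℝ) * N := by
      refine le_trans ?_ hN
      exact_mod_cast h5
    refine h6.trans ?_
    apply mul_le_mul_of_nonneg_right _ hNpos.le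
    apply mul_le_mul_of_nonneg_right _ (by positivity)
    exact Real.rpow_le_rpow_of_exponent_le hY1 hd2
  unfold prop
  rw [e1, Set.ncard_coe_finset, one_div_mul_eq_div, le_div_iff₀ hNpos]
  linarith

end Pool.Agent.Results.MP_7eacff_nt.Rigidity
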