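import Pool.Agent.T9h26.TD.Tg

open Filter

namespace Pool.Agent.Results.MP_7eacff_nt.ThickPoints

/-- multiplicity of `s` as a zero of the Riemann zeta function (order of vanishing at `s`) -/
noncomputable def zmult (s : ℂ) : ℕ := analyticOrderNatAt riemannZeta s

/-- the number of nontrivial zeros of `ζ` with ordinate in `(0, t]`, with multiplicity -/
noncomputable def NZ (t : ℝ) : ℕ :=
  ∑ᶠ s ∈ {s : ℂ | riemannZeta s = 0 ∧ 0 < s.re ∧ s.re < 1 ∧ 0 < s.im ∧ s.im ≤ t}, zmult s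

/-- for `n ≥ 1`: the `n`-th positive ordinate `γ n` of a nontrivial zero of `ζ`, the ordinates being
listed in nondecreasing order and repeated according to multiplicity -/
noncomputable def γ (n : ℕ) : ℝ := sInf {t : ℝ | n ≤ NZ t}

/-- the unfolded consecutive gaps `δ_n = (γ_{n+1} - γ_n) / 2π · log (γ_n / 2π)` -/
noncomputable def δ (n : ℕ) : ℝ := (γ (n + 1) - γ n) / (2 * Real.pi) * Real.log (γ n / (2 * Real.pi))

/-- the fluctuation of the sum of `k` consecutive unfolded gaps, `δ_n + ... + δ_{n+k-1} - k` -/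
noncomputable def D (k n : ℕ) : ℝ := (∑ i ∈ Finset.range k, δ (n + i)) - k

/-- the proportion of the `n ≤ N` with the property `P` -/
noncomputable def prop (P : ℕ → Prop) (N : ℕ) : ℝ :=
  (1 / N : ℝ) * ({n : ℕ | 1 ≤ n ∧ n ≤ N ∧ P n}.ncard : ℝ)

/-- the number of the `k`, `1 ≤ k ≤ M`, with `D k n ≥ a log M` -/
noncomputable def High (a : ℝ) (M n : ℕ) : ℕ :=
  {k : ℕ | 1 ≤ k ∧ k ≤ M ∧ a * Real.log M ≤ D k n}.ncard

/-- the number of the `k`, `1 ≤ k ≤ M`, with `D k n ≤ - a log M` -/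
noncomputable def Low (a : ℝ) (M n : ℕ) : ℕ :=
  {k : ℕ | 1 ≤ k ∧ k ≤ M ∧ D k n ≤ -(a * Real.log M)}.ncard

/-- for all `0 ≤ a ≤ 1/π - ε`, the numbers of the `k ≤ M` with `D k n ≥ a log M` and with
`D k n ≤ - a log M` are `M ^ (1 - π² a² + O(ε))` -/
def Spectrum (ε : ℝ) (M n : ℕ) : Prop :=
  ∀ a : ℝ, 0 ≤ a → a ≤ 1 / Real.pi - ε →
    ((M : ℝ) ^ (1 - Real.pi ^ 2 * a ^ 2 - ε) ≤ High a M n ∧
      (High a M n : ℝ) ≤ (M : ℝ) ^ (1 - Real.pi ^ 2 * a ^ 2 + ε)) ∧
    ((M : ℝ) ^ (1 - Real.pi ^ 2 * a ^ 2 - ε) ≤ Low a M n ∧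
      (Low a M n : ℝ) ≤ (M : ℝ) ^ (1 - Real.pi ^ 2 * a ^ 2 + ε))

/-- the frozen free energy: `β²` for `|β| ≤ 1`, `2 |β| - 1` for `|β| > 1` -/
noncomputable def φ (β : ℝ) : ℝ := if |β| ≤ 1 then β ^ 2 else 2 * |β| - 1

/-- for all real `β`, the mean of `exp (2 π β D k n)` over `1 ≤ k ≤ M` is
`M ^ (φ(β) + O(ε (1 + |β|)))` -/
def FreeEnergy (ε : ℝ) (M n : ℕ) : Prop :=
  ∀ β : ℝ, |Real.log ((1 / M : ℝ) * ∑ k ∈ Finset.Icc 1 M, Real.exp (2 * Real.pi * β * D k n)) /
    Real.log M - φ β| ≤ ε * (1 + |β|)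

/-- Assume the Riemann hypothesis. For every `ε > 0` and every `M ≥ M0(ε)`, for all large `N` a
proportion at least `1 - ε` of the `n ≤ N` are such that, for all `0 ≤ a ≤ 1/π - ε`, the number of the
`k ≤ M` with `D k n ≥ a log M` is `M ^ (1 - π² a² + O(ε))`, and the same for `D k n ≤ - a log M`; and
for all real `β` the mean of `exp (2 π β D k n)` over `k ≤ M` is `M ^ (φ(β) + O(ε (1 + |β|)))`, where
`φ(β) = β²` for `|β| ≤ 1` and `φ(β) = 2 |β| - 1` for `|β| > 1` (freezing). -/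
theorem result (RH : RiemannHypothesis) (ε : ℝ) (hε : 0 < ε) :
    ∃ M0 : ℕ, ∀ M : ℕ, M0 ≤ M → ∀ᶠ N : ℕ in atTop,
      1 - ε ≤ prop (fun n => Spectrum ε M n ∧ FreeEnergy ε M n) N := by
  classical
  set d := min (ε / 24) (1 / 10) with hd
  have hd0 : 0 < d := lt_min (by positivity) (by norm_num)
  have hd1 : d ≤ 1 / 10 := min_le_right _ _
  have hd2 : 24 * d ≤ ε := by
    have : d ≤ ε / 24 := min_le_left _ _
    linarith
  clear_value d
  obtain ⟨M1, hM1, h⟩ := T9h26.TD.thick RH hd0 hd1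
  have ht : Tendsto (fun M : ℕ => Real.exp (d * Real.log M)) atTop atTop :=
    Real.tendsto_exp_atTop.comp ((Real.tendsto_log_atTop.comp
      tendsto_natCast_atTop_atTop).const_mul_atTop hd0)
  obtain ⟨M2, hM2⟩ := eventually_atTop.1 (ht.eventually_ge_atTop (1 / d))
  refine ⟨max M1 M2, fun M hM => ?_⟩
  have hMM1 : M1 ≤ M := (le_max_left _ _).trans hM
  have hMd := hM2 M ((le_max_right _ _).trans hM)
  have hM2' : 2 ≤ M := hM1.trans hMM1
  have hM0 : (0 : ℝ) < M := by exact_mod_cast (by omega : 0 < M)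
  filter_upwards [h M hMM1, eventually_gt_atTop 0] with N hN hN0
  have hNpos : (0 : ℝ) < N := by exact_mod_cast hN0
  set P : ℕ → Prop := fun n => Spectrum ε M n ∧ FreeEnergy ε M n with hP
  -- pointwise
  have hpt : ∀ n : ℕ, (T9h26.TD.TH d M (fun k => T9h26.TD.Sr k n - k) ∧
      T9h26.TD.TH d M (fun k => -(T9h26.TD.Sr k n - k))) → P n := by
    rintro n ⟨h1, h2⟩
    have g1 := h1.mono (show d ≤ ε by linarith) (by omega)
    have g2 := h2.mono (show d ≤ ε by linarith) (by omega)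
    have hrp : ∀ x : ℝ, (M : ℝ) ^ x = Real.exp (x * Real.log M) := fun x => by
      rw [Real.rpow_def_of_pos hM0, mul_comm]
    refine ⟨fun a ha0 ha1 => ?_, fun β => ?_⟩
    · have e1 : High a M n = ((Finset.Icc 1 M).filter
          (fun k => a * Real.log M ≤ T9h26.TD.Sr k n - k)).card := by
        unfold High
        rw [← Set.ncard_coe_finset]
        congr 1
        ext k
        simp only [Set.mem_setOf_eq, Finset.coe_filter, Finset.mem_Icc, and_assoc]
        exact Iff.rfl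
      have e2 : Low a M n = ((Finset.Icc 1 M).filter
          (fun k => a * Real.log M ≤ -(T9h26.TD.Sr k n - k))).card := by
        unfold Low
        rw [← Set.ncard_coe_finset]
        congr 1
        ext k
        simp only [Set.mem_setOf_eq, Finset.coe_filter, Finset.mem_Icc, and_assoc]
        refine and_congr_right fun _ => and_congr_right fun _ => ?_
        exact le_neg
      rw [hrp, hrp, e1, e2]
      exact ⟨g1.2 a ha0 ha1, g2.2 a ha0 ha1⟩
    · rcases le_or_gt 0 β with h0 | h0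
      · have h3 := T9h26.TD.fe hd0 hd1 hd2 hM2' hMd h1 h0
        rw [abs_of_nonneg h0]
        exact h3
      · have h3 := T9h26.TD.fe hd0 hd1 hd2 hM2' hMd h2 (abs_nonneg β)
        rw [T9h26.TD.phi_abs] at h3
        have e1 : ∀ k : ℕ, 2 * Real.pi * |β| * -(T9h26.TD.Sr k n - k) =
            2 * Real.pi * β * (T9h26.TD.Sr k n - k) := by
          intro k
          rw [abs_of_neg h0]
          ring
        simp_rw [e1] at h3
        exact h3
  have e1 : {n : ℕ | 1 ≤ n ∧ n ≤ N ∧ P n} = ((Finset.Icc 1 N).filter P : Finset ℕ) := by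
    ext n
    simp only [Set.mem_setOf_eq, Finset.coe_filter, Finset.mem_Icc]
    tauto
  have e3 := Finset.card_filter_add_card_filter_not (s := Finset.Icc 1 N) P
  rw [Nat.card_Icc, Nat.add_sub_cancel] at e3
  have e4 : (((Finset.Icc 1 N).filter P).card : ℝ) +
      (((Finset.Icc 1 N).filter (fun n => ¬ P n)).card : ℝ) = N := by exact_mod_cast e3
  have e5 : (((Finset.Icc 1 N).filter (fun n => ¬ P n)).card : ℝ) ≤ ε * N := by
    have hfin : {n : ℕ | 1 ≤ n ∧ n ≤ N ∧ ¬ (T9h26.TD.TH d M (fun k => T9h26.TD.Sr k n - k) ∧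
        T9h26.TD.TH d M (fun k => -(T9h26.TD.Sr k n - k)))}.Finite :=
      (Set.finite_Icc 1 N).subset fun n hn => ⟨hn.1, hn.2.1⟩
    have h5 : ((Finset.Icc 1 N).filter (fun n => ¬ P n)).card ≤
        {n : ℕ | 1 ≤ n ∧ n ≤ N ∧ ¬ (T9h26.TD.TH d M (fun k => T9h26.TD.Sr k n - k) ∧
        T9h26.TD.TH d M (fun k => -(T9h26.TD.Sr k n - k)))}.ncard := by
      rw [← Set.ncard_coe_finset]
      apply Set.ncard_le_ncard _ hfin
      intro n hn
      rw [Finset.coe_filter, Set.mem_setOf_eq, Finset.mem_Icc] at hn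
      exact ⟨hn.1.1, hn.1.2, fun hc => hn.2 (hpt n hc)⟩
    have h6 : (((Finset.Icc 1 N).filter (fun n => ¬ P n)).card : ℝ) ≤ d * N := by
      refine le_trans ?_ hN
      exact_mod_cast h5
    refine h6.trans ?_
    apply mul_le_mul_of_nonneg_right _ hNpos.le
    linarith
  unfold prop
  rw [e1, Set.ncard_coe_finset, one_div, inv_mul_eq_div, le_div_iff₀ hNpos]
  linarith

end Pool.Agent.Results.MP_7eacff_nt.ThickPoints
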